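import Pool.Agent.J4H43.SW.Fam

/-!
# Evaluation of polynomials in several operators: one more substitution
-/

set_option autoImplicit false

namespace Pool.Agent.J4H13.MW

open Polynomial Pool.Agent.Helper392_GT Pool.Agent.J4H43.FR Pool.Agent.J4H43.SW

universe u v

section ev

variable {k : Type u} [Field k] {r : ℕ}

/-- noncommutative polynomials over `k[X]` -/
abbrev SR (k : Type u) [Field k] (r : ℕ) : Type u := MonoidAlgebra k[X] (FreeMonoid (Fin r))

/-- evaluation at operators and at the vector `1` -/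
noncomputable def evR (Q : Fin r → Module.End k (BB k)[X]) (q : SR k r) : (BB k)[X] :=
  q.coeff.sum fun w p => emb p * FreeMonoid.lift Q w 1

theorem evR_add (Q : Fin r → Module.End k (BB k)[X]) (q q' : SR k r) :
    evR Q (q + q') = evR Q q + evR Q q' := by
  rw [evR, evR, evR, MonoidAlgebra.coeff_add, Finsupp.sum_add_index']
  · intro w; rw [emb_zero, zero_mul]
  · intro w r s; rw [emb_add, add_mul]

theorem evR_single (Q : Fin r → Module.End k (BB k)[X]) (w : FreeMonoid (Fin r)) (p : k[X]) :
    evR Q (MonoidAlgebra.single w p) = emb p * FreeMonoid.lift Q w 1 := by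
  rw [evR, MonoidAlgebra.coeff_single, Finsupp.sum_single_index]
  rw [emb_zero, zero_mul]

theorem evR_zero (Q : Fin r → Module.End k (BB k)[X]) : evR Q 0 = 0 := by
  rw [evR, MonoidAlgebra.coeff_zero, Finsupp.sum_zero_index]

theorem evR_smul (Q : Fin r → Module.End k (BB k)[X]) (c : k) (q : SR k r) :
    evR Q (c • q) = c • evR Q q := by
  rw [evR, evR, MonoidAlgebra.coeff_smul, Finsupp.sum_smul_index', Finsupp.smul_sum]
  · refine Finset.sum_congr rfl fun w _ => ?_
    change emb (c • (q.coeff w)) * _ = c • (emb (q.coeff w) * _)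
    rw [smul_eq_C_mul, emb_mul, mul_assoc, emb_C]
  · intro w; rw [emb_zero, zero_mul]

theorem evR_sum (Q : Fin r → Module.End k (BB k)[X]) {ι : Type*} (s : Finset ι) (q : ι → SR k r) :
    evR Q (∑ i ∈ s, q i) = ∑ i ∈ s, evR Q (q i) := by
  classical
  induction s using Finset.induction_on with
  | empty => rw [Finset.sum_empty, Finset.sum_empty, evR_zero]
  | insert a s ha ih => rw [Finset.sum_insert ha, Finset.sum_insert ha, evR_add, ih]

theorem evR_mul {Q : Fin r → Module.End k (BB k)[X]} (hQ : ∀ i F, Q i (X * F) = X * Q i F)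
    (i : Fin r) (s : k[X]) (q : SR k r) :
    evR Q (MonoidAlgebra.single (FreeMonoid.of i) s * q) = emb s * (Q i) (evR Q q) := by
  have hc : ∀ (p : k[X]) (F : (BB k)[X]), (Q i) (emb p * F) = emb p * (Q i) F :=
    fun p F => comm_emb (hQ i) p F
  induction q using MonoidAlgebra.induction_linear with
  | zero => rw [mul_zero, evR_zero, map_zero, mul_zero]
  | add f g hf hg => rw [mul_add, evR_add, evR_add, hf, hg, map_add, mul_add]
  | single w p =>
    rw [MonoidAlgebra.single_mul_single, evR_single, evR_single, word_mul, hc, emb_mul,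
      mul_assoc, Module.End.mul_apply]

/-- the substitution -/
noncomputable def thR (M' : Matrix (Fin r) (Fin r) k) (n : Fin r → ℕ) :
    FreeAlgebra k (Fin r) →ₐ[k] SR k r :=
  FreeAlgebra.lift k fun j => ∑ i, MonoidAlgebra.single (FreeMonoid.of i) (C (M' j i) * X ^ n j)

theorem thR_ι (M' : Matrix (Fin r) (Fin r) k) (n : Fin r → ℕ) (j : Fin r) :
    thR M' n (FreeAlgebra.ι k j) =
      ∑ i, MonoidAlgebra.single (FreeMonoid.of i) (C (M' j i) * X ^ n j) := by
  rw [thR, FreeAlgebra.lift_ι_apply]

/-- the specialisation at `z = 1` -/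
noncomputable def spR (M : Matrix (Fin r) (Fin r) k) (q : SR k r) : FreeAlgebra k (Fin r) :=
  q.coeff.sum fun w p => (p.eval 1) • FreeMonoid.lift
    (fun i => ∑ j, M i j • FreeAlgebra.ι k j) w

theorem spR_add (M : Matrix (Fin r) (Fin r) k) (q q' : SR k r) :
    spR M (q + q') = spR M q + spR M q' := by
  rw [spR, spR, spR, MonoidAlgebra.coeff_add, Finsupp.sum_add_index']
  · intro w; rw [eval_zero, zero_smul]
  · intro w r s; rw [eval_add, add_smul]

theorem spR_zero (M : Matrix (Fin r) (Fin r) k) : spR M 0 = 0 := by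
  rw [spR, MonoidAlgebra.coeff_zero, Finsupp.sum_zero_index]

theorem spR_sum (M : Matrix (Fin r) (Fin r) k) {ι : Type*} (s : Finset ι) (q : ι → SR k r) :
    spR M (∑ i ∈ s, q i) = ∑ i ∈ s, spR M (q i) := by
  classical
  induction s using Finset.induction_on with
  | empty => rw [Finset.sum_empty, Finset.sum_empty, spR_zero]
  | insert a s ha ih => rw [Finset.sum_insert ha, Finset.sum_insert ha, spR_add, ih]

theorem spR_smul (M : Matrix (Fin r) (Fin r) k) (c : k) (q : SR k r) :
    spR M (c • q) = c • spR M q := by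
  rw [spR, spR, MonoidAlgebra.coeff_smul, Finsupp.sum_smul_index', Finsupp.smul_sum]
  · refine Finset.sum_congr rfl fun w _ => ?_
    change (c • (q.coeff w)).eval 1 • _ = c • ((q.coeff w).eval 1 • _)
    rw [eval_smul, smul_eq_mul, mul_smul]
  · intro w; rw [eval_zero, zero_smul]

theorem spR_mul (M : Matrix (Fin r) (Fin r) k) (i : Fin r) (s : k[X]) (q : SR k r) :
    spR M (MonoidAlgebra.single (FreeMonoid.of i) s * q) = s.eval 1 •
      ((∑ j, M i j • FreeAlgebra.ι k j) * spR M q) := by
  have hs : ∀ w p, spR M (MonoidAlgebra.single w p) = (p.eval 1) • FreeMonoid.lift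
      (fun i => ∑ j, M i j • FreeAlgebra.ι k j) w := by
    intro w p
    rw [spR, MonoidAlgebra.coeff_single, Finsupp.sum_single_index]
    rw [eval_zero, zero_smul]
  induction q using MonoidAlgebra.induction_linear with
  | zero => rw [mul_zero, spR_zero, mul_zero, smul_zero]
  | add f g hf hg => rw [mul_add, spR_add, spR_add, hf, hg, mul_add, smul_add]
  | single w p =>
    rw [MonoidAlgebra.single_mul_single, hs, hs, word_mul, eval_mul, mul_smul, mul_smul_comm]

theorem spR_thR {M M' : Matrix (Fin r) (Fin r) k} (hM : M' * M = 1) (n : Fin r → ℕ)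
    (g : FreeAlgebra k (Fin r)) : spR M (thR M' n g) = g := by
  refine left_ind (fun g => spR M (thR M' n g) = g) ?_ ?_ ?_ ?_ g
  · rw [map_one, MonoidAlgebra.one_def, spR, MonoidAlgebra.coeff_single, Finsupp.sum_single_index,
      map_one, eval_one, one_smul]
    rw [eval_zero, zero_smul]
  · intro a b ha hb
    rw [map_add, spR_add, ha, hb]
  · intro c a ha
    rw [map_smul, spR_smul, ha]
  · intro j a ha
    rw [map_mul, thR_ι, Finset.sum_mul, spR_sum]
    simp only [spR_mul, ha, eval_mul, eval_C, eval_pow, eval_X, one_pow, mul_one]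
    have h1 : ∀ i, M' j i • ((∑ l, M i l • FreeAlgebra.ι k l) * a) =
        ∑ l, (M' j i * M i l) • (FreeAlgebra.ι k l * a) := by
      intro i
      rw [Finset.sum_mul, Finset.smul_sum]
      refine Finset.sum_congr rfl fun l _ => ?_
      rw [smul_mul_assoc, smul_smul]
    rw [Finset.sum_congr rfl fun i _ => h1 i, Finset.sum_comm]
    have h2 : ∀ l, ∑ i, (M' j i * M i l) • (FreeAlgebra.ι k l * a) =
        (if j = l then (1 : k) else 0) • (FreeAlgebra.ι k l * a) := by
      intro l
      rw [← Finset.sum_smul]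
      congr 1
      have h3 := congrFun (congrFun hM j) l
      rw [Matrix.mul_apply, Matrix.one_apply] at h3
      exact h3
    rw [Finset.sum_congr rfl fun l _ => h2 l]
    simp only [ite_smul, one_smul, zero_smul]
    rw [Finset.sum_ite_eq, if_pos (Finset.mem_univ _)]

/-- bounds for the weights in `q` -/
def BR (N : ℕ) (e : Fin r → ℕ) (m : ℕ) (q : SR k r) : Prop :=
  ∀ u i, (q.coeff u).coeff i ≠ 0 → u.length = m ∧ m * (N + 1) ≤ i + we e u

theorem BR.zero {N : ℕ} {e : Fin r → ℕ} {m : ℕ} : BR N e m (0 : SR k r) := by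
  intro u i hi
  exact absurd (by rw [MonoidAlgebra.coeff_zero, Finsupp.zero_apply, coeff_zero]) hi

theorem BR.add {N : ℕ} {e : Fin r → ℕ} {m : ℕ} {q q' : SR k r} (h : BR N e m q)
    (h' : BR N e m q') : BR N e m (q + q') := by
  intro u i hi
  rw [MonoidAlgebra.coeff_add, Finsupp.add_apply, coeff_add] at hi
  by_cases h1 : (q.coeff u).coeff i = 0
  · by_cases h2 : (q'.coeff u).coeff i = 0
    · exact absurd (by rw [h1, h2, add_zero]) hi
    · exact h' u i h2
  · exact h u i h1

theorem BR.sum {N : ℕ} {e : Fin r → ℕ} {m : ℕ} {ι : Type*} (s : Finset ι) {q : ι → SR k r}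
    (h : ∀ i ∈ s, BR N e m (q i)) : BR N e m (∑ i ∈ s, q i) := by
  classical
  induction s using Finset.induction_on with
  | empty => rw [Finset.sum_empty]; exact BR.zero
  | insert a s ha ih =>
    rw [Finset.sum_insert ha]
    exact (h a (Finset.mem_insert_self a s)).add
      (ih fun i hi => h i (Finset.mem_insert_of_mem hi))

theorem BR.smul {N : ℕ} {e : Fin r → ℕ} {m : ℕ} {q : SR k r} (c : k) (h : BR N e m q) :
    BR N e m (c • q) := by
  intro u i hi
  have e1 : ((c • q).coeff u).coeff i = c * (q.coeff u).coeff i := by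
    rw [MonoidAlgebra.coeff_smul]
    change (c • (q.coeff u)).coeff i = _
    rw [coeff_smul, smul_eq_mul]
  rw [e1] at hi
  exact h u i (right_ne_zero_of_mul hi)

theorem BR.mul {N : ℕ} {e : Fin r → ℕ} {m : ℕ} {q : SR k r} (h : BR N e m q) (i : Fin r) (c : k)
    (a : ℕ) (ha : c ≠ 0 → N + 1 ≤ a + e i) :
    BR N e (m + 1) (MonoidAlgebra.single (FreeMonoid.of i) (C c * X ^ a) * q) := by
  intro u j hj
  induction u using FreeMonoid.casesOn with
  | one =>
    exfalso
    apply hj
    rw [MonoidAlgebra.coeff_single_mul_of_forall_mul_ne, coeff_zero]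
    intro w
    exact of_mul_ne_one i w
  | of_mul z v =>
    by_cases hz : i = z
    · subst hz
      rw [MonoidAlgebra.coeff_single_mul_mul, mul_assoc, coeff_C_mul, coeff_X_pow_mul'] at hj
      have hc := left_ne_zero_of_mul hj
      split_ifs at hj with hnj
      · obtain ⟨h1, h2⟩ := h v (j - a) (right_ne_zero_of_mul hj)
        refine ⟨by rw [FreeMonoid.length_mul, FreeMonoid.length_of, h1, add_comm], ?_⟩
        have := ha hc
        rw [we_mul, add_mul, one_mul]
        omega
      · exact absurd (mul_zero _) hj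
    · exfalso
      apply hj
      rw [MonoidAlgebra.coeff_single_mul_of_forall_mul_ne, coeff_zero]
      intro w hw
      exact hz (of_mul_inj hw).1

theorem BR_thR {N : ℕ} {e : Fin r → ℕ} {M' : Matrix (Fin r) (Fin r) k} {n : Fin r → ℕ}
    (hM' : ∀ j i, M' j i ≠ 0 → N + 1 ≤ n j + e i) (g : FreeAlgebra k (Fin r)) :
    ∀ m, BR N e m (thR M' n (hc m g)) := by
  refine left_ind (fun g => ∀ m, BR N e m (thR M' n (hc m g))) ?_ ?_ ?_ ?_ g
  · intro m
    rw [hc_one]
    split_ifs with h
    · subst h
      rw [map_one, MonoidAlgebra.one_def]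
      intro u i hi
      rw [MonoidAlgebra.coeff_single] at hi
      classical
      rw [Finsupp.single_apply] at hi
      split_ifs at hi with h1
      · rw [← h1]
        exact ⟨rfl, by rw [zero_mul]; exact Nat.zero_le _⟩
      · exact absurd (coeff_zero i) hi
    · rw [map_zero]; exact BR.zero
  · intro a b ha hb m
    rw [map_add, map_add]; exact (ha m).add (hb m)
  · intro c a ha m
    rw [map_smul, map_smul]; exact (ha m).smul c
  · intro j a ha m
    cases m with
    | zero => rw [hc_zero_ι_mul, map_zero]; exact BR.zero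
    | succ m =>
      rw [hc_ι_mul, map_mul, thR_ι, Finset.sum_mul]
      exact BR.sum _ fun i _ => (ha m).mul i _ _ (hM' j i)

theorem X_pow_comm {T : Module.End k (BB k)[X]} (hT : ∀ F, T (X * F) = X * T F) (n : ℕ)
    (F : (BB k)[X]) : T (X ^ n * F) = X ^ n * T F := by
  induction n generalizing F with
  | zero => rw [pow_zero, one_mul, one_mul]
  | succ n ih => rw [pow_succ, mul_assoc, ih, hT, ← mul_assoc]

theorem evR_thR {P : Fin r → Module.End k (BB k)[X]} (hP : ∀ i (F : (BB k)[X]),
    P i (X * F) = X * P i F) {M M' : Matrix (Fin r) (Fin r) k} (hM : M' * M = 1) {N : ℕ}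
    {n : Fin r → ℕ} (hn : ∀ j, n j ≤ N) (g : FreeAlgebra k (Fin r)) :
    evR (fun i => ∑ j, M i j • (LinearMap.mulLeft k (X ^ (N - n j)) ∘ₗ P j)) (thR M' n g) =
      FreeAlgebra.lift k (fun j => (LinearMap.mulLeft k (X ^ N) ∘ₗ P j :
        Module.End k (BB k)[X])) g 1 := by
  obtain ⟨Q, hQ⟩ : ∃ Q : Fin r → Module.End k (BB k)[X], Q =
    fun i => ∑ j, M i j • (LinearMap.mulLeft k (X ^ (N - n j)) ∘ₗ P j) := ⟨_, rfl⟩
  rw [← hQ]
  have hQa : ∀ i F, Q i F = ∑ j, M i j • (X ^ (N - n j) * P j F) := by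
    intro i F
    rw [hQ]
    simp only [LinearMap.sum_apply, LinearMap.smul_apply, LinearMap.comp_apply,
      LinearMap.mulLeft_apply]
  have hQx : ∀ i F, Q i (X * F) = X * Q i F := by
    intro i F
    rw [hQa, hQa, Finset.mul_sum]
    refine Finset.sum_congr rfl fun j _ => ?_
    rw [hP, mul_smul_comm, ← mul_assoc, ← mul_assoc, ← pow_succ, ← pow_succ']
  refine left_ind (fun g => evR Q (thR M' n g) = FreeAlgebra.lift k
    (fun j => (LinearMap.mulLeft k (X ^ N) ∘ₗ P j : Module.End k (BB k)[X])) g 1) ?_ ?_ ?_ ?_ g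
  · rw [map_one (thR M' n), MonoidAlgebra.one_def, evR_single, emb_one, one_mul,
      map_one (FreeAlgebra.lift k _), MonoidHom.map_one]
  · intro a b ha hb
    rw [map_add (thR M' n), evR_add, ha, hb, map_add (FreeAlgebra.lift k _),
      LinearMap.add_apply]
  · intro c a ha
    rw [map_smul (thR M' n), evR_smul, ha, map_smul (FreeAlgebra.lift k _),
      LinearMap.smul_apply]
  · intro j a ha
    rw [map_mul (thR M' n), map_mul (FreeAlgebra.lift k _), Module.End.mul_apply, ← ha,
      FreeAlgebra.lift_ι_apply, thR_ι, Finset.sum_mul, evR_sum]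
    obtain ⟨V, hV⟩ : ∃ V, V = evR Q (thR M' n a) := ⟨_, rfl⟩
    have h1 : ∀ i, evR Q (MonoidAlgebra.single (FreeMonoid.of i) (C (M' j i) * X ^ n j) *
        thR M' n a) = ∑ l, (M' j i * M i l) • (X ^ n j * (X ^ (N - n l) * P l V)) := by
      intro i
      rw [evR_mul hQx, ← hV, hQa, emb_mul, emb_X_pow, mul_assoc, emb_C, Finset.mul_sum,
        Finset.smul_sum]
      refine Finset.sum_congr rfl fun l _ => ?_
      rw [mul_smul_comm, smul_smul]
    rw [Finset.sum_congr rfl fun i _ => h1 i, Finset.sum_comm, ← hV]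
    have h2 : ∀ l, ∑ i, (M' j i * M i l) • (X ^ n j * (X ^ (N - n l) * P l V)) =
        (if j = l then (1 : k) else 0) • (X ^ n j * (X ^ (N - n l) * P l V)) := by
      intro l
      rw [← Finset.sum_smul]
      congr 1
      have h3 := congrFun (congrFun hM j) l
      rw [Matrix.mul_apply, Matrix.one_apply] at h3
      exact h3
    rw [Finset.sum_congr rfl fun l _ => h2 l]
    simp only [ite_smul, one_smul, zero_smul]
    rw [Finset.sum_ite_eq, if_pos (Finset.mem_univ _), ← mul_assoc, ← pow_add,
      Nat.add_sub_cancel' (hn j)]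
    rfl

theorem word_powR {P : Fin r → Module.End k (BB k)[X]} (hP : ∀ i (F : (BB k)[X]),
    P i (X * F) = X * P i F) (N : ℕ) (w : FreeMonoid (Fin r)) :
    FreeMonoid.lift (fun j => (LinearMap.mulLeft k (X ^ N) ∘ₗ P j : Module.End k (BB k)[X])) w 1 =
      X ^ (N * w.length) * FreeMonoid.lift P w 1 := by
  induction w using FreeMonoid.recOn with
  | one =>
    rw [MonoidHom.map_one, MonoidHom.map_one, FreeMonoid.length_one, mul_zero, pow_zero, one_mul]
  | of_mul i w ih =>
    rw [word_mul, word_mul, Module.End.mul_apply, Module.End.mul_apply, ih,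
      FreeMonoid.length_mul, FreeMonoid.length_of, mul_add, mul_one, pow_add, mul_assoc]
    change X ^ N * P i (X ^ (N * w.length) * FreeMonoid.lift P w 1) = _
    rw [X_pow_comm (hP i)]

theorem lemFR {Q : Fin r → Module.End k (BB k)[X]} {d : ℕ} {e : Fin r → ℕ} {H : Fin r → BB k}
    (hQ : ∀ i, HasSym (Q i) d (e i) (H i))
    (hfree : ∀ G : FreeAlgebra k (Fin r), FreeAlgebra.lift k H G = 0 → G = 0)
    (q : FreeMonoid (Fin r) →₀ k[X]) (hq : q ≠ 0) (m : ℕ)
    (hlen : ∀ w ∈ q.support, w.length = m) :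
    ∃ u ∈ q.support, hc (m * d) ((q.sum fun w p => emb p * FreeMonoid.lift Q w 1).coeff
        ((q u).natDegree + we e u)) ≠ 0 := by
  classical
  obtain ⟨u1, hu1, hmax⟩ := Finset.exists_max_image q.support
    (fun w => (q w).natDegree + we e w) (Finsupp.support_nonempty_iff.mpr hq)
  refine ⟨u1, hu1, ?_⟩
  set M := (q u1).natDegree + we e u1 with hM
  set G : FreeAlgebra k (Fin r) := ∑ w ∈ q.support, (q w).coeff (M - we e w) • wrd w with hG
  have hval : hc (m * d) ((q.sum fun w p => emb p * FreeMonoid.lift Q w 1).coeff M) =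
      FreeAlgebra.lift k H G := by
    rw [Finsupp.sum, finsetSum_coeff, map_sum, hG, map_sum]
    refine Finset.sum_congr rfl fun w hw => ?_
    obtain ⟨s1, s2⟩ := sym_fam hQ w
    rw [map_smul, lift_wrd_fam, ← s2]
    have h3 := hmax w hw
    rw [hlen w hw] at s1 ⊢
    exact emb_read s1 h3
  rw [hval]
  intro h0
  have hG0 := hfree G h0
  have h5 := congrArg (wc u1) hG0
  rw [hG, map_sum, map_zero, Finset.sum_eq_single u1] at h5
  · rw [map_smul, wc_wrd_self, smul_eq_mul, mul_one, hM, Nat.add_sub_cancel] at h5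
    exact (Finsupp.mem_support_iff.mp hu1) (leadingCoeff_eq_zero.mp h5)
  · intro w _ hne
    rw [map_smul, wc_wrd_ne (Ne.symm hne), smul_zero]
  · intro h6
    exact absurd hu1 h6

theorem ev_gen {d N : ℕ} {P : Fin r → Module.End k (BB k)[X]} {n s : Fin r → ℕ}
    {M M' : Matrix (Fin r) (Fin r) k} {L : Fin r → BB k} (hM : M' * M = 1)
    (hP : ∀ i (F : (BB k)[X]), P i (X * F) = X * P i F) (hn : ∀ j, n j ≤ N)
    (hS : ∀ i, HasSym (∑ j, M i j • (LinearMap.mulLeft k (X ^ (N - n j)) ∘ₗ P j)) d
      (N - d - s i) (L i))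
    (hfree : ∀ G : FreeAlgebra k (Fin r), FreeAlgebra.lift k L G = 0 → G = 0)
    (hM' : ∀ j i, M' j i ≠ 0 → s i + d < n j)
    {g : FreeAlgebra k (Fin r)} {m : ℕ} (hm : 1 ≤ m) (hg : Hm m g)
    (hval : ∀ a, 1 ≤ a → hc (m * d) ((FreeAlgebra.lift k P g (1 : (BB k)[X])).coeff a) = 0) :
    g = 0 := by
  by_contra hg0
  obtain ⟨e, he⟩ : ∃ e : Fin r → ℕ, e = fun i => N - d - s i := ⟨_, rfl⟩
  have hne : (thR M' n g).coeff ≠ 0 := by
    intro h0
    apply hg0
    rw [← spR_thR hM n g]
    have : thR M' n g = 0 := by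
      apply MonoidAlgebra.coeff_injective
      rw [h0, MonoidAlgebra.coeff_zero]
    rw [this, spR_zero]
  have hB : BR N e m (thR M' n g) := by
    have := BR_thR (N := N) (e := e) (M' := M') (n := n) (by
      intro j i h
      have h1 := hM' j i h
      have h2 := hn j
      rw [he]
      simp only
      omega) g m
    rwa [hg.self] at this
  have hlen : ∀ w ∈ (thR M' n g).coeff.support, w.length = m := by
    intro w hw
    have h1 := Finsupp.mem_support_iff.mp hw
    have h2 : (((thR M' n g).coeff w).coeff (((thR M' n g).coeff w).natDegree)) ≠ 0 := by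
      rw [coeff_natDegree]; exact leadingCoeff_ne_zero.mpr h1
    exact (hB w _ h2).1
  obtain ⟨u, hu, hnz⟩ := lemFR (e := e) (fun i => by rw [he]; exact hS i) hfree _ hne m hlen
  have hwt : m * (N + 1) ≤ ((thR M' n g).coeff u).natDegree + we e u := by
    have h1 := Finsupp.mem_support_iff.mp hu
    have h2 : (((thR M' n g).coeff u).coeff (((thR M' n g).coeff u).natDegree)) ≠ 0 := by
      rw [coeff_natDegree]; exact leadingCoeff_ne_zero.mpr h1
    exact (hB u _ h2).2
  have hev := evR_thR hP hM hn g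
  rw [evR] at hev
  have h3 : FreeAlgebra.lift k (fun j => (LinearMap.mulLeft k (X ^ N) ∘ₗ P j :
      Module.End k (BB k)[X])) g 1 = X ^ (N * m) * FreeAlgebra.lift k P g 1 := by
    rw [lift_one_fam, lift_one_fam, Finsupp.sum, Finsupp.sum, Finset.mul_sum]
    refine Finset.sum_congr rfl fun w hw => ?_
    have h2 : w.length = m := by
      have h3 : wc w (hc m g) ≠ 0 := by
        rw [hg.self]
        exact Finsupp.mem_support_iff.mp hw
      rw [wc_hc] at h3
      by_contra hne
      rw [if_neg hne] at h3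
      exact h3 rfl
    rw [word_powR hP, h2, mul_smul_comm]
  rw [hev, h3, coeff_X_pow_mul'] at hnz
  split_ifs at hnz with hle
  · apply hnz
    apply hval
    have h4 : m * (N + 1) = N * m + m := by ring
    omega
  · exact hnz (map_zero _)

end ev

end Pool.Agent.J4H13.MW
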