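import Pool.Agent.J4H43.MW.Stm
import Pool.Agent.J4H13.MW.EvCore

/-!
# The evaluation statement
-/

set_option autoImplicit false

namespace Pool.Agent.J4H13.MW

open Polynomial Pool.Agent.Helper392_GT Pool.Agent.J4H43.FR Pool.Agent.J4H43.SW
open Pool.Agent.J4H43.MW

universe u

theorem t_EV : S_EV.{u} := by
  intro k _ r d N P n s M M' L hd hMM' hM'M hP hn hS hfree hM' g m hm hg hval
  exact ev_gen hM'M hP hn hS hfree hM' hm hg hval

end Pool.Agent.J4H13.MW
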